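import Mathlib
import Pool.Agent.VH.ClassP
/-!
# A class of groups in which finite complete ShortLex systems imply automaticity
-/
namespace Pool.Agent.Results.MP_6a3c10_al.AutomaticClass
open Pool.Agent.SLX Pool.Agent.SLA Pool.Agent.VH

/-- Let `Γ` be a group with a finite complete ShortLex rewriting system for a finite ordered monoid
generating set, and let `H` be a coarse retract of `Γ` (for instance `H = Γ`). If `H` belongs to the
class `ClsP`, then `H` is automatic.

`Cls` is the smallest class of groups which is closed under isomorphism, finite free products,
direct products, extensions with finite kernel and passing to groups in which the given group has
finite index, which contains every group that is hyperbolic relative to finitely many groups of the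
class, and which contains
* the automatic groups of finite asymptotic dimension,
* the groups `G` with a virtually solvable normal subgroup `N` of finite (Pruefer) rank such that
  `G / N` is virtually a finite direct product of word-hyperbolic groups,
* the groups `G` of finite asymptotic dimension with an element `a` of infinite order which generates
  a commensurated subgroup, such that `G / ⟨a ^ M⟩` is virtually a finite direct product of
  word-hyperbolic groups whenever `M > 0` and `⟨a ^ M⟩` is normal.

`ClsP` is the closure of `Cls` and of the class of all automatic groups under isomorphism, finite
free products, passing to groups in which the given group has finite index and passing to groups
which are hyperbolic relative to finitely many groups of the class. -/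
theorem result {A Γ : Type} [Finite A] [LinearOrder A] [Group Γ] (π : A → Γ)
    (E : Set (List A × List A)) (hE : IsSystem π E) (H : Subgroup Γ) (hH : CoRet (Wl π) H)
    (hC : ClsP H) : Automatic H :=
  clsP_coret hE H hH hC

end Pool.Agent.Results.MP_6a3c10_al.AutomaticClass
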