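import Mathlib
import Pool.Agent.SLX.Defs
import Pool.Agent.VD.Disp
import Pool.Agent.VD.Build
/-!
# Displacement sets in groups with a finite complete ShortLex system
-/
namespace Pool.Agent.Results.MP_6a3c10_al.DisplacementSets
open Pool.Agent.SLX Pool.Agent.VNP Pool.Agent.VN Pool.Agent.VS Pool.Agent.VD

/-- Let `G` be a group with a finite complete ShortLex rewriting system for some finite ordered
monoid generating set, and suppose that `G` has finite asymptotic dimension or that `G` acts with
finite vertex stabilisers on a finite-dimensional mod 2 acyclic simplicial complex (for instance,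
`G` has finite virtual cohomological dimension). Then there is a finite set `S` which generates
`G` as a monoid such that for all `k` and `R` there is a constant `C` with the following property.
Suppose that a conjugate of some power `w ^ m` (`m > 0`) is a product of at most `m * n` elements of
`S`, and let `Y n` be the set of all `x` for which `x⁻¹ w x` is a product of at most `n` elements of
`S`. Then every mod 2 cycle `c` of simplices with `k` points in `Y n`, at mutual distance at most
`R`, is the boundary of a mod 2 chain `e` of simplices with `k + 1` points in `Y (n + C)`, at mutual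
distance at most `C`. (`k = 0`: as the empty simplex is a cycle, `w` has a conjugate of length at
most `n + C`. `k = 1`: two conjugates of `w` of length at most `n` are joined by a chain of
conjugations with elements of length at most `C` through conjugates of length at most `n + C`.) -/
theorem result (G : Type) [Group G]
    (hG : (∃ D : ℕ, AsdimLE G D) ∨ ∃ d : ℕ, ProperDim G d) (h : HasSystem G) :
    ∃ S : Set G, S.Finite ∧ Submonoid.closure S = ⊤ ∧ ∀ k R : ℕ, ∃ C : ℕ,
      ∀ (w g : G) (m n : ℕ), 0 < m → IsShort S (m * n) (g⁻¹ * w ^ m * g) →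
      ∀ c : FCh G, (∀ σ ∈ c.support, σ.card = k ∧ (∀ x ∈ σ, ∀ y ∈ σ, IsShort S R (x⁻¹ * y)) ∧
        ∀ x ∈ σ, IsShort S n (x⁻¹ * w * x)) → fbd c = 0 →
      ∃ e : FCh G, (∀ σ ∈ e.support, σ.card = k + 1 ∧
        (∀ x ∈ σ, ∀ y ∈ σ, IsShort S C (x⁻¹ * y)) ∧
        ∀ x ∈ σ, IsShort S (n + C) (x⁻¹ * w * x)) ∧ fbd e = c := by
  obtain ⟨A, hA, hlo, π, E, hE⟩ := h
  obtain ⟨F⟩ := exists_NF hE
  rcases hG with ⟨D, hD⟩ | ⟨d, hd⟩
  · exact disp_fill2 F (dimP_of_asd F (asd_of_asdim F hD))
  · exact disp_fill2 F (dimP_of_proper F hd)

end Pool.Agent.Results.MP_6a3c10_al.DisplacementSets
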