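import Mathlib
import Pool.Agent.SLX.Defs
import Pool.Agent.VEA.Proper
/-!
# Elementary amenable subgroups of groups with a finite complete ShortLex system
-/
namespace Pool.Agent.Results.MP_6a3c10_al.ElementaryAmenable
open Pool.Agent.SLX Pool.Agent.VNP Pool.Agent.VD

/-- Let `G` be a group with a finite complete ShortLex rewriting system for some finite ordered
monoid generating set, and suppose that
(a) `G` is isomorphic to a discrete subgroup of `GL_n(ℝ)`, or
(b) `G` is isomorphic to a subgroup of `GL_n(K)` for a number field `K`, or
(c) `G` is residually finite, and `G` has finite asymptotic dimension or acts with finite vertex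
stabilisers on a finite-dimensional mod 2 acyclic simplicial complex.
Then every elementary amenable subgroup `P` of `G` is finitely generated and undistorted in `G`,
and has an abelian subgroup of finite index. -/
theorem result (G : Type) [Group G]
    (hG : (∃ (n : ℕ) (ρ : G →* GL (Fin n) ℝ), Function.Injective ρ ∧
        DiscreteTopology ρ.range) ∨
      (∃ (K : Type) (_ : Field K) (_ : NumberField K) (n : ℕ) (ρ : G →* GL (Fin n) K),
        Function.Injective ρ) ∨
      Group.ResiduallyFinite G ∧ ((∃ D : ℕ, AsdimLE G D) ∨ ∃ d : ℕ, ProperDim G d))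
    (h : HasSystem G) (P : Subgroup G) (hP : Pool.Agent.VEA.ElementaryAmenable P) :
    Undistorted P ∧
      ∃ H : Subgroup G, H ≤ P ∧ H.relIndex P ≠ 0 ∧ ∀ a ∈ H, ∀ b ∈ H, a * b = b * a := by
  have h1 := Pool.Agent.VEA.ea_all h hG P hP
  exact ⟨h1.2.2, h1.1⟩

end Pool.Agent.Results.MP_6a3c10_al.ElementaryAmenable
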