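import Mathlib
import Pool.Agent.VH.ClassP
/-!
# A class of groups in which finite complete ShortLex systems imply ShortLex-automaticity
-/
namespace Pool.Agent.Results.MP_6a3c10_al.ShortLexClass
open Pool.Agent.SLX Pool.Agent.SLA Pool.Agent.VH

/-- Let `Γ` be a group with a finite complete ShortLex rewriting system for a finite ordered monoid
generating set, and let `H` be a coarse retract of `Γ` (for instance `H = Γ`). If `H` belongs to the
class `ClsQ`, then `H` is ShortLex-automatic with respect to some finite ordered monoid generating
set.

`ClsS` is the smallest class of groups which is closed under isomorphism, finite free products and
direct products and which contains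
* the ShortLex-automatic groups of finite asymptotic dimension,
* the virtually solvable groups of finite (Pruefer) rank and the elementary amenable groups which
  are residually finite of finite asymptotic dimension.

`ClsQ` is the closure of `ClsS` and of the class of all ShortLex-automatic groups under isomorphism
and finite free products. -/
theorem result {A Γ : Type} [Finite A] [LinearOrder A] [Group Γ] (π : A → Γ)
    (E : Set (List A × List A)) (hE : IsSystem π E) (H : Subgroup Γ) (hH : CoRet (Wl π) H)
    (hC : ClsQ H) : ShortLexAutomatic H :=
  clsQ_coret hE H hH hC

end Pool.Agent.Results.MP_6a3c10_al.ShortLexClass
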